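import Pool.Agent.Y803.SEL.Stm
import Pool.Agent.Y800.HM

/-! Project SEL: finiteness of the residual cocycles (Hermite-Minkowski). -/

set_option autoImplicit false

namespace Pool.Agent.Y710.SEL.Fin

open Pool.Agent.Y800 Pool.Agent.Y803.SEL NumberField
open scoped Pointwise

theorem mem_fixing {k Ω : Type} [Field k] [Field Ω] [Algebra k Ω] (K : IntermediateField k Ω)
    [FiniteDimensional k K] (τ : Gal(Ω/k))
    (h : ∀ i, τ (Module.finBasis k K i : Ω) = (Module.finBasis k K i : Ω)) : τ ∈ K.fixingSubgroup := by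
  rw [IntermediateField.mem_fixingSubgroup_iff]
  intro x hx
  have h6 := (Module.finBasis k K).sum_repr (⟨x, hx⟩ : K)
  have h7 := congrArg K.val h6
  rw [map_sum] at h7
  have h8 : K.val ⟨x, hx⟩ = x := rfl
  rw [h8] at h7
  rw [← h7, map_sum]
  refine Finset.sum_congr rfl fun i _ => ?_
  rw [map_smul, map_smul]
  congr 1
  exact h i

section gen

variable {Ω : Type} [Field Ω] [Algebra ℚ Ω] [Algebra.IsAlgebraic ℚ Ω]

omit [Algebra ℚ Ω] [Algebra.IsAlgebraic ℚ Ω] in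
/-- a nonzero algebraic integer divides a nonzero natural number -/
theorem exists_nat_mul (x : 𝓞 Ω) (hx : x ≠ 0) : ∃ m : ℕ, m ≠ 0 ∧ ∃ y : 𝓞 Ω, (m : 𝓞 Ω) = x * y := by
  have h1 : (Ideal.span {x}).comap (algebraMap ℤ (𝓞 Ω)) ≠ ⊥ :=
    Ideal.comap_ne_bot_of_integral_mem hx (Ideal.mem_span_singleton_self x)
      (Algebra.IsIntegral.isIntegral x)
  obtain ⟨a, ha, ha0⟩ := Submodule.exists_mem_ne_zero_of_ne_bot h1
  refine ⟨a.natAbs, Int.natAbs_ne_zero.2 ha0, ?_⟩
  obtain ⟨y, hy⟩ := Ideal.mem_span_singleton.1 (Ideal.mem_comap.1 ha)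
  have hy' : (a : 𝓞 Ω) = x * y := by rw [← hy]; simp
  rcases Int.natAbs_eq a with h | h
  · exact ⟨y, by rw [← hy', ← Int.cast_natCast, ← h]⟩
  · refine ⟨-y, ?_⟩
    rw [mul_neg, ← hy', ← Int.cast_natCast, ← Int.cast_neg]
    congr 1
    omega

omit [Algebra.IsAlgebraic ℚ Ω] in
theorem coe_smul' (σ : Gal(Ω/ℚ)) (x : 𝓞 Ω) : ((σ • x : 𝓞 Ω) : Ω) = σ x := rfl

/-- the conjugates of an algebraic integer -/
theorem finite_conj (α : 𝓞 Ω) : {β : 𝓞 Ω | ∃ σ : Gal(Ω/ℚ), β = σ • α}.Finite := by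
  have h1 : ((minpoly ℚ (α : Ω)).rootSet Ω).Finite :=
    Polynomial.rootSet_finite _ _
  refine Set.Finite.of_injOn (f := fun β : 𝓞 Ω => (β : Ω)) ?_ ?_ h1
  · rintro β ⟨σ, rfl⟩
    have hα : IsIntegral ℚ (α : Ω) := Algebra.IsIntegral.isIntegral _
    rw [Polynomial.mem_rootSet]
    refine ⟨minpoly.ne_zero hα, ?_⟩
    show Polynomial.aeval (σ (α : Ω)) _ = 0
    rw [Polynomial.aeval_algEquiv, AlgHom.comp_apply, minpoly.aeval, map_zero]
  · intro a _ b _ h
    exact RingOfIntegers.ext h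

/-- away from finitely many primes the inertia groups fix a given algebraic integer -/
theorem bad (α : 𝓞 Ω) : ∃ N : ℕ, N ≠ 0 ∧ ∀ P : Ideal (𝓞 Ω), (N : 𝓞 Ω) ∉ P → ∀ τ : Gal(Ω/ℚ),
    (∀ x : 𝓞 Ω, τ • x - x ∈ P) → τ • α = α := by
  classical
  choose! m hm y hy using exists_nat_mul (Ω := Ω)
  set R : Finset (𝓞 Ω) := (finite_conj α).toFinset.erase α with hR
  refine ⟨∏ β ∈ R, m (β - α), Finset.prod_ne_zero_iff.2 fun β hβ =>
    hm _ (sub_ne_zero.2 (Finset.ne_of_mem_erase hβ)), fun P hP τ hτ => ?_⟩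
  by_contra hne
  apply hP
  have h1 : τ • α ∈ R := Finset.mem_erase.2 ⟨hne, (finite_conj α).mem_toFinset.2 ⟨τ, rfl⟩⟩
  obtain ⟨k, hk⟩ := Finset.dvd_prod_of_mem (fun β => m (β - α)) h1
  rw [hk, Nat.cast_mul, hy _ (sub_ne_zero.2 hne), mul_assoc]
  exact P.mul_mem_right _ (hτ α)

/-- away from finitely many primes the inertia groups fix given algebraic integers -/
theorem bads (A : Finset (𝓞 Ω)) : ∃ N : ℕ, N ≠ 0 ∧ ∀ P : Ideal (𝓞 Ω), (N : 𝓞 Ω) ∉ P → ∀ τ : Gal(Ω/ℚ),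
    (∀ x : 𝓞 Ω, τ • x - x ∈ P) → ∀ α ∈ A, τ • α = α := by
  classical
  choose N hN h using bad (Ω := Ω)
  refine ⟨∏ α ∈ A, N α, Finset.prod_ne_zero_iff.2 fun α _ => hN α, fun P hP τ hτ α hα => ?_⟩
  refine h α P (fun h' => hP ?_) τ hτ
  obtain ⟨k, hk⟩ := Finset.dvd_prod_of_mem N hα
  rw [hk, Nat.cast_mul]
  exact P.mul_mem_right _ h'

/-- an open subgroup contains almost all the inertia groups -/
theorem openInertia' (Γ : Subgroup Gal(Ω/ℚ)) (hΓ : IsOpen (Γ : Set Gal(Ω/ℚ))) : ∃ N : ℕ, N ≠ 0 ∧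
    ∀ P : Ideal (𝓞 Ω), (N : 𝓞 Ω) ∉ P → ∀ τ : Gal(Ω/ℚ), (∀ x : 𝓞 Ω, τ • x - x ∈ P) → τ ∈ Γ := by
  classical
  have : CharZero Ω := algebraRat.charZero Ω
  obtain ⟨K, hK, hKΓ⟩ := (krullTopology_mem_nhds_one_iff ℚ Ω (Γ : Set Gal(Ω/ℚ))).1
    (hΓ.mem_nhds Γ.one_mem)
  set b := Module.finBasis ℚ K with hb
  have h1 : ∀ i, ∃ a : 𝓞 Ω, ∃ k : ℤ, k ≠ 0 ∧ (a : Ω) = k • (b i : Ω) := by
    intro i
    have h2 : IsAlgebraic ℤ (b i : Ω) :=
      (IsFractionRing.isAlgebraic_iff ℤ ℚ Ω).2 (Algebra.IsAlgebraic.isAlgebraic _)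
    obtain ⟨k, hk, hk'⟩ := h2.exists_integral_multiple
    exact ⟨⟨k • (b i : Ω), hk'⟩, k, hk, rfl⟩
  choose a k hk ha using h1
  obtain ⟨N, hN, h⟩ := bads (Finset.univ.image a)
  refine ⟨N, hN, fun P hP τ hτ => hKΓ ?_⟩
  have h3 : ∀ i, τ (b i : Ω) = (b i : Ω) := by
    intro i
    have h4 := congrArg (fun z : 𝓞 Ω => (z : Ω))
      (h P hP τ hτ (a i) (Finset.mem_image_of_mem a (Finset.mem_univ i)))
    have h5 : τ (a i : Ω) = (a i : Ω) := h4
    rw [ha i, zsmul_eq_mul, map_mul, map_intCast] at h5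
    exact mul_left_cancel₀ (Int.cast_ne_zero.2 (hk i)) h5
  exact mem_fixing K τ h3

end gen

/-- an open subgroup contains almost all the inertia groups -/
theorem openInertia (Γ : Subgroup GQ) (hΓ : IsOpen (Γ : Set GQ)) : ∃ N : ℕ, N ≠ 0 ∧
    ∀ P : Ideal ZBar, (N : ZBar) ∉ P → ∀ τ : GQ, InInertia P τ → τ ∈ Γ :=
  openInertia' Γ hΓ

/-- the index of the normal core -/
theorem index_core {G : Type} [Group G] (H : Subgroup G) (hH : H.index ≠ 0) (D : ℕ) (hD : H.index ≤ D) :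
    H.normalCore.index ≤ Nat.factorial D := by
  have hfin : Finite (G ⧸ H) := (Subgroup.finiteIndex_iff_finite_quotient).1 ⟨hH⟩
  rw [Subgroup.normalCore_eq_ker, Subgroup.index_ker]
  refine le_trans (Nat.card_le_card_of_injective _ Subtype.coe_injective) ?_
  rw [Nat.card_perm]
  exact Nat.factorial_le hD

theorem natCast_notMem {P : Ideal ZBar} (hP : P.IsMaximal) {q m : ℕ} (hq : q.Prime) (hqP : (q : ZBar) ∈ P)
    (hm : ¬ q ∣ m) : (m : ZBar) ∉ P := by
  intro h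
  have hc : IsCoprime (q : ℤ) (m : ℤ) := Nat.isCoprime_iff_coprime.2 ((Nat.Prime.coprime_iff_not_dvd hq).2 hm)
  obtain ⟨a, b, hab⟩ := hc
  apply hP.ne_top
  rw [Ideal.eq_top_iff_one]
  have h2 : (1 : ZBar) = (a : ZBar) * (q : ZBar) + (b : ZBar) * (m : ZBar) := by
    have := congrArg (fun z : ℤ => (z : ZBar)) hab
    simpa using this.symm
  rw [h2]
  exact P.add_mem (P.mul_mem_left _ hqP) (P.mul_mem_left _ h)

theorem inertia_conj {P : Ideal ZBar} {τ : GQ} (hτ : InInertia P τ) (g : GQ) :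
    InInertia (g • P) (g * τ * g⁻¹) := by
  intro x
  rw [Ideal.mem_pointwise_smul_iff_inv_smul_mem, smul_sub, mul_smul, mul_smul, inv_smul_smul]
  exact hτ _

theorem smul_isMaximal {P : Ideal ZBar} (hP : P.IsMaximal) (g : GQ) : (g • P).IsMaximal := by
  have h : g • P = P.comap ((MulSemiringAction.toRingEquiv GQ ZBar g).symm : ZBar →+* ZBar) := by
    ext x
    rw [Ideal.mem_pointwise_smul_iff_inv_smul_mem, Ideal.mem_comap]
    rfl
  rw [h]
  exact Ideal.comap_isMaximal_of_surjective _ (MulSemiringAction.toRingEquiv GQ ZBar g).symm.surjective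

theorem natCast_smul_mem {P : Ideal ZBar} (g : GQ) (m : ℕ) : (m : ZBar) ∈ g • P ↔ (m : ZBar) ∈ P := by
  rw [Ideal.mem_pointwise_smul_iff_inv_smul_mem]
  have : g⁻¹ • (m : ZBar) = m := by
    apply RingOfIntegers.ext
    rw [coe_smul']
    push_cast
    exact map_natCast g⁻¹ m
  rw [this]

section cocycle

variable {p : ℕ} [Fact p.Prime] {n : ℕ} {Γ : Subgroup GQ} (ρ : Γ →* GL (Fin n) ℤ_[p])
  (c : Γ → Fin n → ZMod p)

/-- reduction of the matrix and value of the cocycle -/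
noncomputable def F (g : Γ) : Matrix (Fin n) (Fin n) (ZMod p) × (Fin n → ZMod p) :=
  ((ρ g : Matrix (Fin n) (Fin n) ℤ_[p]).map (PadicInt.toZMod (p := p)), c g)

theorem actM_eq {g h : Γ} (e : (ρ g : Matrix (Fin n) (Fin n) ℤ_[p]).map (PadicInt.toZMod (p := p)) =
    (ρ h : Matrix (Fin n) (Fin n) ℤ_[p]).map (PadicInt.toZMod (p := p))) (x : Fin n → ZMod p) :
    actM (ρ g) x = actM (ρ h) x := by
  rw [actM, actM, e]

theorem map_mul' (g h : Γ) : (ρ (g * h) : Matrix (Fin n) (Fin n) ℤ_[p]).map (PadicInt.toZMod (p := p)) =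
    (ρ g : Matrix (Fin n) (Fin n) ℤ_[p]).map (PadicInt.toZMod (p := p)) *
      (ρ h : Matrix (Fin n) (Fin n) ℤ_[p]).map (PadicInt.toZMod (p := p)) := by
  rw [map_mul, Units.val_mul, Matrix.map_mul]

theorem map_one' : (ρ 1 : Matrix (Fin n) (Fin n) ℤ_[p]).map (PadicInt.toZMod (p := p)) = 1 := by
  rw [map_one, Units.val_one]
  exact Matrix.map_one _ (map_zero _) (map_one _)

theorem actM_one (x : Fin n → ZMod p) : actM (ρ 1) x = x := by
  rw [actM, map_one', Matrix.one_mulVec]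

theorem actM_mul (g h : Γ) (x : Fin n → ZMod p) : actM (ρ (g * h)) x = actM (ρ g) (actM (ρ h) x) := by
  rw [actM, actM, actM, map_mul', Matrix.mulVec_mulVec]

variable {c} (hc : ∀ g h : Γ, c (g * h) = c g + actM (ρ g) (c h))

include hc

theorem c_one : c 1 = 0 := by
  have := hc 1 1
  rw [mul_one, actM_one] at this
  exact left_eq_add.1 this

/-- the subgroup attached to a cocycle -/
noncomputable def N : Subgroup Γ where
  carrier := {g | F ρ c g = (1, 0)}
  one_mem' := by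
    show F ρ c 1 = (1, 0)
    rw [F, map_one', c_one ρ hc]
  mul_mem' := by
    intro a b ha hb
    have ha1 := congrArg Prod.fst (show F ρ c a = (1, 0) from ha)
    have ha2 := congrArg Prod.snd (show F ρ c a = (1, 0) from ha)
    have hb1 := congrArg Prod.fst (show F ρ c b = (1, 0) from hb)
    have hb2 := congrArg Prod.snd (show F ρ c b = (1, 0) from hb)
    simp only [F] at ha1 ha2 hb1 hb2
    show F ρ c (a * b) = (1, 0)
    rw [F, map_mul', ha1, hb1, one_mul, hc, ha2, hb2, zero_add, actM, Matrix.mulVec_zero]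
  inv_mem' := by
    intro a ha
    have ha1 := congrArg Prod.fst (show F ρ c a = (1, 0) from ha)
    have ha2 := congrArg Prod.snd (show F ρ c a = (1, 0) from ha)
    simp only [F] at ha1 ha2
    show F ρ c a⁻¹ = (1, 0)
    have h1 : (ρ a⁻¹ : Matrix (Fin n) (Fin n) ℤ_[p]).map (PadicInt.toZMod (p := p)) = 1 := by
      have := map_mul' ρ a⁻¹ a
      rw [inv_mul_cancel, map_one', ha1, mul_one] at this
      exact this.symm
    have h2 : c a⁻¹ = 0 := by
      have := hc a⁻¹ a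
      rw [inv_mul_cancel, c_one ρ hc, ha2, actM, Matrix.mulVec_zero, add_zero] at this
      exact this.symm
    rw [F, h1, h2]

theorem mem_N {g : Γ} : g ∈ N ρ hc ↔ F ρ c g = (1, 0) := Iff.rfl

theorem mem_N_of_eq {g h : Γ} (e : F ρ c g = F ρ c h) : g⁻¹ * h ∈ N ρ hc := by
  have e1 := congrArg Prod.fst e
  have e2 := congrArg Prod.snd e
  simp only [F] at e1 e2
  rw [mem_N, F, Prod.mk.injEq]
  constructor
  · rw [map_mul', ← e1, ← map_mul', inv_mul_cancel, map_one']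
  · rw [hc, ← e2, ← hc, inv_mul_cancel, c_one ρ hc]

theorem eq_of_mem_N {g h : Γ} (e : g⁻¹ * h ∈ N ρ hc) : c g = c h := by
  have e2 := congrArg Prod.snd ((mem_N ρ hc).1 e)
  simp only [F] at e2
  have h1 : h = g * (g⁻¹ * h) := by group
  rw [h1, hc, e2, actM, Matrix.mulVec_zero, add_zero]

theorem index_N : (N ρ hc).index ≠ 0 ∧
    (N ρ hc).index ≤ Nat.card (Matrix (Fin n) (Fin n) (ZMod p) × (Fin n → ZMod p)) := by
  have hinj : Function.Injective (fun q : Γ ⧸ N ρ hc => F ρ c q.out) := by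
    intro q q' h
    have h1 := mem_N_of_eq ρ hc h
    rw [← QuotientGroup.eq] at h1
    rw [QuotientGroup.out_eq', QuotientGroup.out_eq'] at h1
    exact h1
  have hfin : Finite (Γ ⧸ N ρ hc) := Finite.of_injective _ hinj
  refine ⟨(Subgroup.finiteIndex_of_finite_quotient (H := N ρ hc)).index_ne_zero, ?_⟩
  exact Nat.card_le_card_of_injective _ hinj

theorem isOpen_N (hρ : Continuous ρ) (hcc : Continuous c) : IsOpen (N ρ hc : Set Γ) := by
  have h1 : (N ρ hc : Set Γ) = (⋂ i, ⋂ j, {g : Γ | PadicInt.toZMod ((ρ g : Matrix (Fin n) (Fin n) ℤ_[p]) i j) =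
      (1 : Matrix (Fin n) (Fin n) (ZMod p)) i j}) ∩ {g | c g = 0} := by
    ext g
    rw [SetLike.mem_coe, mem_N, F, Prod.mk.injEq, Set.mem_inter_iff]
    show _ ∧ c g = 0 ↔ _ ∧ c g = 0
    refine and_congr_left fun _ => ?_
    rw [Set.mem_iInter, ← Matrix.ext_iff]
    refine forall_congr' fun i => ?_
    rw [Set.mem_iInter]
    rfl
  rw [h1]
  refine IsOpen.inter (isOpen_iInter_of_finite fun i => isOpen_iInter_of_finite fun j => ?_) ?_
  · have h2 : IsOpen {x : ℤ_[p] | PadicInt.toZMod x = (1 : Matrix (Fin n) (Fin n) (ZMod p)) i j} := by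
      rw [Metric.isOpen_iff]
      intro x hx
      refine ⟨1, one_pos, fun y hy => ?_⟩
      rw [Metric.mem_ball, dist_eq_norm] at hy
      have h3 : y - x ∈ RingHom.ker (PadicInt.toZMod : ℤ_[p] →+* ZMod p) := by
        rw [PadicInt.ker_toZMod, IsLocalRing.mem_maximalIdeal, PadicInt.mem_nonunits]
        exact hy
      rw [RingHom.mem_ker, map_sub, sub_eq_zero] at h3
      show PadicInt.toZMod y = _
      rw [h3]
      exact hx
    have h3 : Continuous (fun g : Γ => (ρ g : Matrix (Fin n) (Fin n) ℤ_[p]) i j) :=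
      (Units.continuous_val.comp hρ).matrix_elem i j
    exact h2.preimage h3
  · exact (isOpen_discrete ({0} : Set (Fin n → ZMod p))).preimage hcc

end cocycle

theorem t : S_FIN := by
  classical
  intro p _ n Γ hΓ ρ hρ N₀ hN₀ hur
  obtain ⟨N₁, hN₁, hin⟩ := openInertia Γ hΓ
  have hcptG : CompactSpace GQ := inferInstance
  have hΓf : Γ.FiniteIndex := by
    have : Finite (GQ ⧸ Γ) := Γ.quotient_finite_of_isOpen hΓ
    exact Subgroup.finiteIndex_of_finite_quotient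
  set D0 : ℕ := Nat.card (Matrix (Fin n) (Fin n) (ZMod p) × (Fin n → ZMod p)) * Γ.index with hD0
  set S : Finset ℕ := (N₀ * N₁).primeFactors with hS
  have hB := HM.finite_subgroups S (fun q hq => Nat.prime_of_mem_primeFactors hq) (Nat.factorial D0)
  refine Set.Finite.subset (Set.Finite.biUnion hB (t := fun C => if h : Finite (GQ ⧸ C) then
    Set.range (fun (f : GQ ⧸ C → (Fin n → ZMod p)) (g : Γ) => f (QuotientGroup.mk (g : GQ))) else ∅) ?_) ?_
  · rintro C -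
    split_ifs with h
    · exact Set.finite_range _
    · exact Set.finite_empty
  · rintro c ⟨hcc, hc, hci⟩
    set M : Subgroup GQ := (N ρ hc).map Γ.subtype with hM
    have hMi : M.index = (N ρ hc).index * Γ.index := Subgroup.index_map_subtype _
    have hM0 : M.index ≠ 0 := by
      rw [hMi]
      exact mul_ne_zero (index_N ρ hc).1 hΓf.index_ne_zero
    have hMD : M.index ≤ D0 := by
      rw [hMi, hD0]
      exact Nat.mul_le_mul_right _ (index_N ρ hc).2
    have hMo : IsOpen (M : Set GQ) := by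
      rw [hM, Subgroup.coe_map]
      exact hΓ.isOpenEmbedding_subtypeVal.isOpenMap _ (isOpen_N ρ hc hρ hcc)
    have hMf : M.FiniteIndex := ⟨hM0⟩
    have hCo : IsOpen (M.normalCore : Set GQ) :=
      Subgroup.isOpen_of_isClosed_of_finiteIndex _ (M.normalCore_isClosed (Subgroup.isClosed_of_isOpen _ hMo))
    have hCf : Finite (GQ ⧸ M.normalCore) := Subgroup.finiteIndex_iff_finite_quotient.1 inferInstance
    rw [Set.mem_iUnion₂]
    refine ⟨M.normalCore, ⟨inferInstance, hCo, index_core M hM0 D0 hMD, ?_⟩, ?_⟩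
    · intro q hq hqS P hP hqP τ hτ g
      have hq1 : ¬ q ∣ N₀ * N₁ := fun h => hqS (Nat.mem_primeFactors.2 ⟨hq, h, mul_ne_zero hN₀ hN₁⟩)
      have hP' := smul_isMaximal hP g
      have hqP' := (natCast_smul_mem (P := P) g q).2 hqP
      have hτ' := inertia_conj hτ g
      have h0 : (N₀ : ZBar) ∉ g • P := natCast_notMem hP' hq hqP' fun h => hq1 (h.mul_right _)
      have h1 : (N₁ : ZBar) ∉ g • P := natCast_notMem hP' hq hqP' fun h => hq1 (h.mul_left _)
      have hΓτ : g * τ * g⁻¹ ∈ Γ := hin _ h1 _ hτ'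
      refine ⟨⟨g * τ * g⁻¹, hΓτ⟩, ?_, rfl⟩
      rw [SetLike.mem_coe, mem_N, F, hci _ hP' h0 ⟨_, hΓτ⟩ hτ', hur _ hP' h0 ⟨_, hΓτ⟩ hτ', Units.val_one,
        Matrix.map_one _ (map_zero _) (map_one _)]
    · rw [dif_pos hCf]
      refine ⟨fun q => if h : ∃ g : Γ, (QuotientGroup.mk (g : GQ) : GQ ⧸ M.normalCore) = q then c h.choose else 0, ?_⟩
      funext g
      have hg : ∃ g' : Γ, (QuotientGroup.mk (g' : GQ) : GQ ⧸ M.normalCore) = QuotientGroup.mk (g : GQ) := ⟨g, rfl⟩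
      show (if h : ∃ g' : Γ, (QuotientGroup.mk (g' : GQ) : GQ ⧸ M.normalCore) = QuotientGroup.mk (g : GQ)
        then c h.choose else 0) = c g
      rw [dif_pos hg]
      have h1 := hg.choose_spec
      rw [QuotientGroup.eq] at h1
      obtain ⟨k, hk, hk'⟩ := M.normalCore_le h1
      refine eq_of_mem_N ρ hc ?_
      have h2 : (hg.choose)⁻¹ * g = k := Subtype.ext hk'.symm
      rw [h2]
      exact hk

end Pool.Agent.Y710.SEL.Fin
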